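import Pool.Agent.H77.FT.All

/-!
# The Tate conjecture for products of Fermat varieties over finite fields

`F` is a finite field with `q = p ^ f` elements, `ψ` a primitive additive character, and `χ` runs over the
multiplicative characters.  The curve `C_m : y ^ p - y = x ^ m` (`m` prime to `p`, `m ∣ q - 1`) has
`H^1 = ⊕ V(χ, ψ)`, `χ ≠ 1`, `χ ^ m = 1`, `ψ ≠ 1`, lines on which the Frobenius of `F` acts by the Gauss sum
`- g(χ, ψ)`; every Fermat variety of degree `m` is dominated by a power of `C_m`, its motives of rank one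
being the `V(χ_1) ⊗ ... ⊗ V(χ_r)(1)` with `χ_1 ... χ_r = 1`.  Write `[χ]` for the isomorphism class of
the rank one motive `V(χ, ψ)` over the algebraic closure and `[L]` for the Lefschetz motive.  The
following isomorphisms are given by known algebraic cycles:

* `[χ] + [χ⁻¹] = [L]`  (duality),
* `[χ ^ p] = [χ]`  (graph of Frobenius),
* `[χ] = [χ']` if `χ⁻¹ = χ ^ p ^ i` and `χ'⁻¹ = χ' ^ p ^ j`  (supersingular characters; Tate's theorem),
* `∑ [χ ρ ^ j] = [χ ^ l] + ∑ [ρ ^ j]` for `ρ` of prime order `l`, `χ ^ l ≠ 1`  (the cycles of the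
  Davenport-Hasse formula: Aoki, Terasoma, Otsubo-Yamazaki).

A product of `2 c` lines consists of Tate classes (over some finite extension) if and only if
`(g(χ_1) ... g(χ_2c)) ^ N = q ^ (c N)` for some `N ≥ 1`.  The theorem says that all such classes are
consequences of the four relations, that is `∑ [χ_i] = c [L]`, if the order of every `χ_i` is

* a prime power or twice a prime power, or
* a divisor of some `p ^ j + 1`, or
* `q₁ q₂` or (if this is odd) `2 q₁ q₂` with coprime prime powers `q₁, q₂` each of which divides some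
  `p ^ j + 1`,

and that `2 f (∑ [χ_i]) = 2 f c [L]` always.  So Q1 holds in all codimensions for all products of curves
`y ^ p - y = x ^ m` and of Fermat varieties whose degrees `m` (which may differ) are of this kind, and for
all `m` the tensor power of exponent `2 f` of every Tate class is algebraic.

If `F` is the prime field then `χ ^ p = χ` and only the duality and the Davenport-Hasse relations
remain, which hold in characteristic `0`.

Sketch of the proof.  By Stickelberger's theorem (proved here with a valuation of `ℂ` extending the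
Teichmueller character) the Gauss sum relation gives `∑_i ∑_j ⟨⟨p ^ j u k_i⟩⟩ = 0` for all units `u`,
where `⟨⟨ ⟩⟩` is the sawtooth function and `k_i ∈ ℤ / (q - 1)` corresponds to `χ_i`.  The relations say
that `[ ]` is an odd distribution on `ℤ / (q - 1)`, invariant under `p`.  Over `ℂ` these are spanned by
the translates of `∑_j ⟨⟨p ^ j k⟩⟩`, as `B_{1, χ} ≠ 0` for odd `χ`.  By Kubert's theorem (proved here:
the universal ordinary distribution is torsion free) the obstruction is killed by the order of the
group generated by `-1` and `p`.  For the orders above it vanishes: the group acts freely and the lattice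
is an induced module.
-/

open Finset

namespace Pool.Agent.H77.Old.FermatVarieties

/-- The free abelian group on the symbols `[χ]` (`some χ`), one for each multiplicative character of
`F`, and `[L]` (`none`). -/
abbrev Symbols (F : Type) [Field F] : Type := FreeAbelianGroup (Option (MulChar F ℂ))

/-- the symbol `[χ]`. -/
noncomputable def cls {F : Type} [Field F] (χ : MulChar F ℂ) : Symbols F :=
  FreeAbelianGroup.of (some χ)

/-- the symbol `[L]`. -/
noncomputable def lef (F : Type) [Field F] : Symbols F := FreeAbelianGroup.of none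

/-- The four families of relations. -/
inductive Rel (p : ℕ) (F : Type) [Field F] : Symbols F → Prop
  | dual (χ : MulChar F ℂ) : χ ≠ 1 → Rel p F (cls χ + cls χ⁻¹ - lef F)
  | frobenius (χ : MulChar F ℂ) : χ ≠ 1 → Rel p F (cls (χ ^ p) - cls χ)
  | supersingular (χ χ' : MulChar F ℂ) (i j : ℕ) : χ ≠ 1 → χ' ≠ 1 → χ⁻¹ = χ ^ p ^ i →
      χ'⁻¹ = χ' ^ p ^ j → Rel p F (cls χ - cls χ')
  | davenportHasse (ρ χ : MulChar F ℂ) : (orderOf ρ).Prime → χ ^ orderOf ρ ≠ 1 →
      Rel p F (∑ j ∈ range (orderOf ρ), cls (χ * ρ ^ j) -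
        (cls (χ ^ orderOf ρ) + ∑ j ∈ Ico 1 (orderOf ρ), cls (ρ ^ j)))

/-- The subgroup generated by the relations. -/
def relations (p : ℕ) (F : Type) [Field F] : AddSubgroup (Symbols F) :=
  AddSubgroup.closure {x | Rel p F x}

/-- The orders allowed in the first part. -/
def Good (p m : ℕ) : Prop :=
  (∃ l s : ℕ, l.Prime ∧ (m = l ^ s ∨ m = 2 * l ^ s)) ∨ (∃ j, m ∣ p ^ j + 1) ∨
    ∃ q₁ q₂ : ℕ, IsPrimePow q₁ ∧ IsPrimePow q₂ ∧ q₁.Coprime q₂ ∧
      (m = q₁ * q₂ ∨ (m = 2 * (q₁ * q₂) ∧ Odd (q₁ * q₂))) ∧
      (∃ j, q₁ ∣ p ^ j + 1) ∧ (∃ j, q₂ ∣ p ^ j + 1)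

/-- If `(∏ g(χ_i)) ^ N = q ^ (c N)` for `2 c` nontrivial characters then `∑ [χ_i] = c [L]` modulo the
relations if all orders are good, and `2 f ∑ [χ_i] = 2 f c [L]` modulo the relations always. -/
theorem result
    (p f : ℕ) (hp : p.Prime) (F : Type) [Field F] [Fintype F]
    (hF : Fintype.card F = p ^ f) (ψ : AddChar F ℂ) (hψ : ψ.IsPrimitive) (ι : Type) [Fintype ι]
    (χ : ι → MulChar F ℂ) (hχ : ∀ i, χ i ≠ 1) (c N : ℕ) (hc : Fintype.card ι = 2 * c) (hN : 0 < N)
    (htate : (∏ i, gaussSum (χ i) ψ) ^ N = (Fintype.card F : ℂ) ^ (c * N)) :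
    ((∀ i, Good p (orderOf (χ i))) → ∑ i, cls (χ i) - c • lef F ∈ relations p F) ∧
      (2 * f) • (∑ i, cls (χ i) - c • lef F) ∈ relations p F := by
  classical
  let Q := Symbols F ⧸ relations p F
  let π : Symbols F →+ Q := QuotientAddGroup.mk' (relations p F)
  have hπ : ∀ x, Rel p F x → π x = 0 := fun x hx =>
    (QuotientAddGroup.eq_zero_iff x).mpr (AddSubgroup.subset_closure hx)
  have hmem : ∀ x, π x = 0 → x ∈ relations p F := fun x hx => (QuotientAddGroup.eq_zero_iff x).mp hx
  have T : H77.FT.GaussRel (P := Multiplicative Q) p (Multiplicative.ofAdd (π (lef F)))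
      (fun χ => Multiplicative.ofAdd (π (cls χ))) := by
    constructor
    · intro χ h
      have := hπ _ (Rel.dual χ h)
      rw [map_sub, map_add, sub_eq_zero] at this
      rw [← ofAdd_add, this]
    · intro χ h
      have := hπ _ (Rel.frobenius χ h)
      rw [map_sub, sub_eq_zero] at this
      simp only [this]
    · intro χ χ' i j h h' h1 h2
      have := hπ _ (Rel.supersingular χ χ' i j h h' h1 h2)
      rw [map_sub, sub_eq_zero] at this
      simp only [this]
    · intro ρ χ h h'
      have := hπ _ (Rel.davenportHasse ρ χ h h')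
      rw [map_sub, sub_eq_zero, map_add, map_sum, map_sum] at this
      rw [← ofAdd_sum, ← ofAdd_sum, ← ofAdd_add, this]
  constructor
  · intro hA
    have h := H77.FT.rel_exact H77.FT.pid_full H77.FT.sti_full p f hp F hF ψ hψ _ _ _ T ι χ c N hχ hc hN htate hA
    apply hmem
    rw [← ofAdd_sum, ← ofAdd_nsmul] at h
    have h' := Multiplicative.ofAdd.injective h
    rw [map_sub, map_sum, map_nsmul, h', sub_self]
  · have h := H77.FT.rel_tor H77.FT.pix_full H77.FT.sti_full p f hp F hF ψ hψ _ _ _ T ι χ c N hχ hc hN htate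
    apply hmem
    rw [← ofAdd_sum, ← ofAdd_nsmul, ← ofAdd_nsmul] at h
    have h' := Multiplicative.ofAdd.injective h
    rw [map_nsmul, map_sub, map_sum, map_nsmul, nsmul_sub, h', smul_smul, mul_comm, sub_self]

end Pool.Agent.H77.Old.FermatVarieties
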